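import Mathlib
import Pool.Agent.Results.MP_9b9442_nt.RamifiedCovers
import Pool.Agent.H107.IntBox

/-!
# Vojta's inequality for the points of covers over the approximations to almost every point

Let `X → ℙⁿ` be a finite cover over `ℚ`, ramified over different irreducible hypersurfaces `F_j = 0` of degree `k_j`
with all ramification indices at least `ν_j`, each `F_j` a hyperplane, a quadric or a form with few coincidences. For
almost every `z` in `ℝⁿ` and every `κ < ∑ k_j (1 - 1 / ν_j)`, ALL points of `X` (of any degree) over all but finitely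
many of the rational points `x` with `|x - z| ≤ H(x) ^ (- 1 - 1 / n)` satisfy `d(P) ≥ κ h(x)`. By Dirichlet's theorem
every `z` has infinitely many such `x`.
-/

set_option autoImplicit false

namespace Pool.Agent.Results.MP_9b9442_nt.CoversNearAlmostEveryPoint

open MvPolynomial MeasureTheory
open Pool.Agent.Results.MP_9b9442_nt.RamifiedCovers (RamifiedAlong FewCoincidences logDisc)
open Pool.Agent.H107.IB (size chart one_le_size)

/-- the integer vectors `x` over which there is a point `P` of the cover with `d(P) < κ log size(x)` -/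
def Bad {n : ℕ} (A : Type) [CommRing A] [Algebra (MvPolynomial (Fin (n + 1)) ℚ) A] (κ : ℝ) :
    Set (Fin (n + 1) → ℤ) :=
  {x | ∃ (K : Type) (_ : Field K) (_ : NumberField K) (φ : A →+* K),
    (∀ i, φ (algebraMap (MvPolynomial (Fin (n + 1)) ℚ) A (X i)) = x i) ∧
    logDisc K < κ * Real.log (size x)}

/-- the hypotheses on the cover and the hypersurfaces -/
def Ramified {n : ℕ} (A : Type) [CommRing A] [Algebra (MvPolynomial (Fin (n + 1)) ℚ) A] {q : ℕ}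
    (F : Fin q → MvPolynomial (Fin (n + 1)) ℤ) (k ν : Fin q → ℕ) : Prop :=
  (∀ j, (F j).IsHomogeneous (k j)) ∧ (∀ j, Irreducible (map (Int.castRingHom ℚ) (F j))) ∧
  (∀ i j, i ≠ j → ¬ Associated (map (Int.castRingHom ℚ) (F i)) (map (Int.castRingHom ℚ) (F j))) ∧
  (∀ j, k j ≤ 2 ∨ FewCoincidences (F j) (k j)) ∧ (∀ j, 1 ≤ ν j) ∧
  (∀ j, RamifiedAlong A (map (Int.castRingHom ℚ) (F j)) (ν j))

lemma count {n : ℕ} (A : Type) [CommRing A] [Algebra (MvPolynomial (Fin (n + 1)) ℚ) A]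
    [Module.Finite (MvPolynomial (Fin (n + 1)) ℚ) A] {q : ℕ}
    (F : Fin q → MvPolynomial (Fin (n + 1)) ℤ) (k ν : Fin q → ℕ) (hR : Ramified A F k ν)
    (κ : ℝ) (hκ0 : 0 ≤ κ) (hκ : κ < ∑ j, (k j : ℝ) * (1 - 1 / ν j)) :
    ∃ c : ℝ, 0 < c ∧ c ≤ 1 ∧ ∃ C : ℝ, ∀ B : ℕ, 1 ≤ B →
      (Set.ncard {x : Fin (n + 1) → ℤ | (∀ i, |x i| ≤ (B : ℤ)) ∧ x ∈ Bad A κ} : ℝ) ≤
        C * (B : ℝ) ^ ((n : ℝ) + 1 - c) := by
  obtain ⟨h1, h2, h3, h4, h5, h6⟩ := hR
  obtain ⟨c, hc, C, hC⟩ := Pool.Agent.Results.MP_9b9442_nt.RamifiedCovers.result n A q F k ν h1 h2 h3 h4 h5 h6 κ hκ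
  refine ⟨min c 1, lt_min hc one_pos, min_le_right _ _, max C 0, fun B hB => ?_⟩
  have hB1 : (1 : ℝ) ≤ B := by exact_mod_cast hB
  have hsub : {x : Fin (n + 1) → ℤ | (∀ i, |x i| ≤ (B : ℤ)) ∧ x ∈ Bad A κ} ⊆
      {x : Fin (n + 1) → ℤ | (∀ i, |x i| ≤ B) ∧
        ∃ (K : Type) (_ : Field K) (_ : NumberField K) (φ : A →+* K),
          (∀ i, φ (algebraMap (MvPolynomial (Fin (n + 1)) ℚ) A (X i)) = x i) ∧
          logDisc K < κ * Real.log B} := by
    rintro x ⟨g1, K, i1, i2, φ, g2, g3⟩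
    refine ⟨g1, K, i1, i2, φ, g2, g3.trans_le ?_⟩
    apply mul_le_mul_of_nonneg_left _ hκ0
    apply Real.log_le_log (by linarith [one_le_size x])
    rw [Pool.Agent.H107.IB.size_le_iff x hB1, Nat.floor_natCast]
    exact g1
  have hfin : {x : Fin (n + 1) → ℤ | (∀ i, |x i| ≤ B) ∧
        ∃ (K : Type) (_ : Field K) (_ : NumberField K) (φ : A →+* K),
          (∀ i, φ (algebraMap (MvPolynomial (Fin (n + 1)) ℚ) A (X i)) = x i) ∧
          logDisc K < κ * Real.log B}.Finite :=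
    (Pool.Agent.H107.IB.box_finite B).subset fun x hx => hx.1
  calc (Set.ncard {x : Fin (n + 1) → ℤ | (∀ i, |x i| ≤ (B : ℤ)) ∧ x ∈ Bad A κ} : ℝ)
      ≤ C * (B : ℝ) ^ ((n : ℝ) + 1 - c) := (Nat.cast_le.2 (Set.ncard_le_ncard hsub hfin)).trans (hC B hB)
    _ ≤ max C 0 * (B : ℝ) ^ ((n : ℝ) + 1 - c) := mul_le_mul_of_nonneg_right (le_max_left _ _) (by positivity)
    _ ≤ max C 0 * (B : ℝ) ^ ((n : ℝ) + 1 - min c 1) := by
        apply mul_le_mul_of_nonneg_left _ (le_max_right _ _)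
        apply Real.rpow_le_rpow_of_exponent_le hB1
        linarith [min_le_left c 1]

/-- **Theorem.** Let `X → ℙⁿ`, `n ≥ 1`, be a finite cover over `ℚ` with the homogeneous coordinate ring `A`, ramified over
different irreducible hypersurfaces `F_j = 0` of degree `k_j` with all indices at least `ν_j`, each `F_j` a hyperplane, a
quadric, or a form with few coincidences.
(1) For almost every `z` in `ℝⁿ` and all `0 ≤ κ < ∑ k_j (1 - 1 / ν_j)` the following holds for all but finitely many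
integer vectors `x` with `|x_i / x_0 - z_i| ≤ size(x) ^ (- 1 - 1 / n)`, `1 ≤ i ≤ n`: ALL points `P` of `X` over `x`, over all
number fields `K`, satisfy `d(K) ≥ κ log size(x)`.
(2) For `0 ≤ κ < ∑ k_j (1 - 1 / ν_j)` there is `c > 0` such that for every map `φ` of `ℤ^(n+1)` to a metric space and each
`σ > 0` there is a set `E` of Hausdorff dimension at most `(n + 1 - c) / σ` such that for `z` outside `E` the same holds for
all but finitely many `x` with `dist (φ x) z ≤ size(x) ^ (-σ)`. -/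
theorem result (n : ℕ) (hn : 1 ≤ n) (A : Type) [CommRing A] [Algebra (MvPolynomial (Fin (n + 1)) ℚ) A]
    [Module.Finite (MvPolynomial (Fin (n + 1)) ℚ) A] (q : ℕ)
    (F : Fin q → MvPolynomial (Fin (n + 1)) ℤ) (k ν : Fin q → ℕ) (hR : Ramified A F k ν) :
    (∀ᵐ z : Fin n → ℝ, ∀ κ : ℝ, 0 ≤ κ → κ < ∑ j, (k j : ℝ) * (1 - 1 / ν j) →
      {x : Fin (n + 1) → ℤ | x ∈ Bad A κ ∧
        ∀ i, |chart x i - z i| ≤ (size x) ^ (-(1 + 1 / (n : ℝ)))}.Finite) ∧
    (∀ κ : ℝ, 0 ≤ κ → κ < ∑ j, (k j : ℝ) * (1 - 1 / ν j) → ∃ c : ℝ, 0 < c ∧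
      ∀ (M : Type) [MetricSpace M] (φ : (Fin (n + 1) → ℤ) → M) (σ : ℝ), 0 < σ →
        ∃ E : Set M, dimH E ≤ ENNReal.ofReal (((n : ℝ) + 1 - c) / σ) ∧ ∀ z ∉ E,
          {x : Fin (n + 1) → ℤ | x ∈ Bad A κ ∧ dist (φ x) z ≤ (size x) ^ (-σ)}.Finite) := by
  have hn0 : (0 : ℝ) < n := by exact_mod_cast hn
  refine ⟨?_, fun κ hκ0 hκ => ?_⟩
  · have hall : ∀ p : ℚ, ∀ᵐ z : Fin n → ℝ, 0 ≤ (p : ℝ) → (p : ℝ) < ∑ j, (k j : ℝ) * (1 - 1 / ν j) →
        {x : Fin (n + 1) → ℤ | x ∈ Bad A (p : ℝ) ∧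
          ∀ i, |chart x i - z i| ≤ (size x) ^ (-(1 + 1 / (n : ℝ)))}.Finite := by
      intro p
      by_cases h : 0 ≤ (p : ℝ) ∧ (p : ℝ) < ∑ j, (k j : ℝ) * (1 - 1 / ν j)
      · obtain ⟨c, hc, hc1, C, hC⟩ := count A F k ν hR p h.1 h.2
        filter_upwards [(Pool.Agent.H107.IB.near hn (Bad A (p : ℝ)) hc1 C hC).2] with z hz _ _
        refine hz (1 + 1 / (n : ℝ)) ?_
        rw [div_lt_iff₀ hn0, add_mul, one_div_mul_cancel hn0.ne']
        linarith
      · exact Filter.Eventually.of_forall fun z h1 h2 => absurd ⟨h1, h2⟩ h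
    rw [← ae_all_iff] at hall
    filter_upwards [hall] with z hz κ hκ0 hκ
    obtain ⟨p, hp1, hp2⟩ := exists_rat_btwn hκ
    refine (hz p (hκ0.trans hp1.le) hp2).subset ?_
    rintro x ⟨⟨K, i1, i2, φ, g2, g3⟩, g4⟩
    refine ⟨⟨K, i1, i2, φ, g2, g3.trans_le ?_⟩, g4⟩
    exact mul_le_mul_of_nonneg_right hp1.le (Real.log_nonneg (one_le_size x))
  · obtain ⟨c, hc, hc1, C, hC⟩ := count A F k ν hR κ hκ0 hκ
    exact ⟨c, hc, fun M _ φ σ hσ => (Pool.Agent.H107.IB.near hn (Bad A κ) hc1 C hC).1 φ σ hσ⟩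

end Pool.Agent.Results.MP_9b9442_nt.CoversNearAlmostEveryPoint
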