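import Mathlib
import Pool.Agent.H107.MetricFam
import Pool.Agent.Results.MP_9b9442_nt.FermatIntersections

/-!
# Vojta's inequality for the algebraic points of all Fermat intersections over the approximations to a point

Let `k` be a number field, `a_0, …, a_{q-1}` linear forms in `n + 1 ≥ 2` variables over `k`, any `n + 1` of them linearly
independent, `q ≥ n + 1`, and `m ≥ 1`. `X_m` is the variety of the points `(y_0 : … : y_{q-1})` with
`(y_i ^ m) = (a_i(x))` for some `x ∈ ℙ^n`; it is a smooth complete intersection of dimension `n`, of general type for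
`m (q - n - 1) > q`, and `h_K(P) = (m (q - n - 1) - q) h(P)`. For `q = n + 2` these are the diagonal hypersurfaces.

Let `φ` be any map of `ℙ^n(k)` to a metric space `M` (for example the embedding in the real, complex or `p`-adic points),
`σ > 0` and `θ ≥ 0`. There is one set `E ⊆ M` of Hausdorff dimension at most `exponent(n, q, θ) / σ` such that for all `z`
outside `E`, ALL systems of linear forms `a` as above and all `c` the following holds for all but finitely many
`x ∈ ℙ^n(k)` with `dist (φ x) z ≤ H(x) ^ (-σ)`, not on the hyperplanes `a_i = 0`: ALL points `P` of ALL `X_m`, `m ≥ 1`, above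
`x` satisfy `(θ m - q) h(P) ≤ d_k(P) + c`. For `θ = q - n - 1 - ε` this is Vojta's inequality with the term `ε m h(P)`. The
exponent is less than `n + 1` for `θ < q`, and at most `θ < 1` for the diagonal hypersurfaces of dimension `n ≥ 2`. (For
`k = ℚ` every real point `z` has infinitely many approximations of the order `σ = 1 + 1 / n`.)
-/

set_option autoImplicit false

namespace Pool.Agent.Results.MP_9b9442_nt.FermatNearPoints

open NumberField LinearAlgebra.Projectivization
open FermatIntersections (lin Violates exponent)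

/-- any `n + 1` of the linear forms are linearly independent -/
def General {k : Type} [Field k] {n q : ℕ} (a : Fin q → Fin (n + 1) → k) : Prop :=
  ∀ I : Finset (Fin q), I.card = n + 1 → LinearIndependent k (fun i : I => a i)

/-- The `k`-rational points `x` of `ℙ^n` off the hyperplanes `a_i = 0` above which some point of some `X_m` violates
`(θ m - q) h(P) ≤ d_k(P) + c`. -/
def Bad {k : Type} [Field k] [NumberField k] {n q : ℕ} (a : Fin q → Fin (n + 1) → k)
    (θ c : ℝ) : Set (ℙ k (Fin (n + 1) → k)) :=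
  {x | (∀ i, lin (a i) x.rep ≠ 0) ∧ Violates θ c fun i => lin (a i) x.rep}

theorem countable_nf (K : Type) [Field K] [NumberField K] : Countable K :=
  (Module.finBasis ℚ K).equivFun.injective.countable

lemma violates_mono {k : Type} [Field k] [NumberField k] {q : ℕ} {θ c c' : ℝ} {v : Fin q → k} (h : c' ≤ c)
    (hv : Violates θ c v) : Violates θ c' v := by
  obtain ⟨m, L, i1, i2, i3, y, t, hm, ht, hy, hvi⟩ := hv
  exact ⟨m, L, i1, i2, i3, y, t, hm, ht, hy, by linarith⟩

lemma exponent_nonneg {n q : ℕ} (hn : 1 ≤ n) (hq : n + 1 ≤ q) {θ : ℝ} (hθ : 0 ≤ θ) : 0 ≤ exponent n q θ := by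
  unfold FermatIntersections.exponent
  have hn1 : (1 : ℝ) ≤ n := by exact_mod_cast hn
  have hq1 : (n : ℝ) + 1 ≤ q := by exact_mod_cast hq
  refine le_min (mul_nonneg hθ ?_) (mul_nonneg (by positivity) ?_)
  · have hpos : (0 : ℝ) < (q.choose (n + 1) : ℝ) := by exact_mod_cast Nat.choose_pos hq
    rw [sub_nonneg, div_le_one hpos]
    exact_mod_cast Nat.choose_le_choose (n + 1) (Nat.sub_le q n)
  · have hpos : (0 : ℝ) < (q : ℝ) * ((q : ℝ) - 1) := mul_pos (by linarith) (by linarith)
    rw [sub_nonneg, div_le_one hpos]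
    nlinarith

/-- **Vojta's inequality for the algebraic points of all Fermat intersections over the approximations to a point.** -/
theorem result (k : Type) [Field k] [NumberField k] (n q : ℕ) (hn : 1 ≤ n) (hq : n + 1 ≤ q) (θ : ℝ) (hθ : 0 ≤ θ) :
    (θ < q → exponent n q θ < n + 1) ∧ (q = n + 2 → 2 ≤ n → exponent n q θ ≤ θ) ∧
    ∀ (M : Type) [MetricSpace M] (φ : ℙ k (Fin (n + 1) → k) → M) (σ : ℝ), 0 < σ →
      ∃ E : Set M, dimH E ≤ ENNReal.ofReal (exponent n q θ / σ) ∧
        ∀ z ∉ E, ∀ a : Fin q → Fin (n + 1) → k, General a → ∀ c : ℝ,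
          {x : ℙ k (Fin (n + 1) → k) | x ∈ Bad a θ c ∧ dist (φ x) z ≤ x.mulHeight ^ (-σ)}.Finite := by
  classical
  have := countable_nf k
  have hex : ∃ a : Fin q → Fin (n + 1) → k, General a := by
    -- the Vandermonde vectors `(1, i, i ^ 2, …)`
    refine ⟨fun i j => ((i : ℕ) : k) ^ (j : ℕ), fun I hI => ?_⟩
    have e : Fin (n + 1) ≃ I := (I.equivFinOfCardEq hI).symm
    rw [← linearIndependent_equiv e]
    have hdet : (Matrix.vandermonde fun j : Fin (n + 1) => (((e j).1 : ℕ) : k)).det ≠ 0 := by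
      rw [Matrix.det_vandermonde_ne_zero_iff]
      intro i j hij
      have h1 : (((e i).1 : ℕ) : k) = (((e j).1 : ℕ) : k) := hij
      have h2 : ((e i).1 : ℕ) = ((e j).1 : ℕ) := by exact_mod_cast h1
      exact e.injective (Subtype.ext (Fin.ext h2))
    exact Matrix.linearIndependent_rows_of_det_ne_zero hdet
  obtain ⟨a0, ha0⟩ := hex
  have h0 := FermatIntersections.result k θ 0 1 hθ one_pos n q hn hq a0 ha0
  refine ⟨h0.1, h0.2.1, fun M _ φ σ hσ => ?_⟩
  set S : (Fin q → Fin (n + 1) → k) × ℕ → Set (ℙ k (Fin (n + 1) → k)) := fun j =>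
    if General j.1 then Bad j.1 θ (-(j.2 : ℝ)) else ∅ with hS
  obtain ⟨E, hE, h⟩ := Pool.Agent.H107.ME.dim_family φ (fun x : ℙ k (Fin (n + 1) → k) => x.mulHeight)
    (fun x => x.one_le_mulHeight) (exponent_nonneg hn hq hθ) hσ S (by
      rintro ⟨a, j⟩ ε hε
      simp only [hS]
      split_ifs with ha
      · obtain ⟨-, -, C, hC⟩ := FermatIntersections.result k θ (-(j : ℝ)) ε hθ hε n q hn hq a ha
        refine ⟨C, fun X hX => ?_⟩
        obtain ⟨h1, h2⟩ := hC X hX
        have hsub : {t : ℙ k (Fin (n + 1) → k) | t ∈ Bad a θ (-(j : ℝ)) ∧ t.mulHeight ≤ X} ⊆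
            FermatIntersections.exceptional a θ (-(j : ℝ)) X := by
          rintro t ⟨⟨g1, g2⟩, g3⟩
          exact ⟨g1, g3, g2⟩
        exact ⟨h1.subset hsub, (Nat.cast_le.2 (Set.ncard_le_ncard hsub h1)).trans h2⟩
      · refine ⟨0, fun X hX => ?_⟩
        simp)
  refine ⟨E, hE, fun z hz a ha c => ?_⟩
  obtain ⟨j, hj⟩ := exists_nat_ge (-c)
  refine (h z hz (a, j)).subset ?_
  rintro x ⟨⟨g1, g2⟩, g3⟩
  refine ⟨?_, g3⟩
  simp only [hS]
  rw [if_pos ha]
  exact ⟨g1, violates_mono (by linarith) g2⟩

end Pool.Agent.Results.MP_9b9442_nt.FermatNearPoints
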