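import Mathlib
import Pool.Agent.H107.MetricFam
import Pool.Agent.Results.MP_9b9442_nt.CubicBranchPoints
import Pool.Agent.Results.MP_9b9442_nt.CyclicCovers
import Pool.Agent.Results.MP_9b9442_nt.ProductsOfCurves

/-!
# Vojta's inequality for all points of covers over the approximations to a point, with small exceptional sets

1. Let `F = ∏ f_i` be a product of binary forms over `ℤ` of degrees at most `3`, without multiple factor, of degree `q`, and
`m ≥ 2`; over a rational number `x = a / b` the curve `X : y ^ m = F(x, 1)` has the points `P` with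
`ℚ(P) = ℚ(y)`, `y ^ m = F(a, b)`; a canonical divisor is the pull-back of `q (1 - 1 / m) - 2` points. For almost every real
`z` and ALL `m`, ALL `F`, all `σ > 4 / 3` and all `c`, all points `P` over all but finitely many rational numbers `x` with
`|x - z| ≤ H(x) ^ (-σ)` satisfy `h_K(P) ≤ d(P) + c`. (The `x` with `|x - z| ≤ H(x) ^ (-2)` include the convergents
of `z`.) For each `σ > 0` the set of the exceptional `z` has Hausdorff dimension at most `4 / (3 σ)`. The same holds in every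
metric space `M` and for every map `φ : ℚ → M` in place of `ℚ ⊂ ℝ`, for example for `ℚ ⊂ ℚ_p`.
2. The same for the curves `y ^ m = a ∏ (x - a_j) ^ (e_j)`, `m` prime, `q ≥ 3` rational branch points, and
`h_K(P) ≤ d(P) + ε h(x) + c`, with the exponent `2 - 2 (2 + ε) / q` in place of `4 / 3`.
3. The same for the products of `n` curves `X_i` (of arbitrary genus) with maps to the line which are unramified outside the
fibres over at most `Q` rational points, over the approximations to `z` by the points `x` of `K ^ n`, `K` a number field,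
and for `∑_i (deg K_{X_i} / N_i + θ) h(x_i) ≤ d_K(P) + c`, with the exponent `exponent n Q θ < 2 n`.
-/

set_option autoImplicit false

namespace Pool.Agent.Results.MP_9b9442_nt.NearPointsSharp

open Polynomial

/-- the height of a rational number -/
def size (x : ℚ) : ℝ := ((max x.num.natAbs x.den : ℕ) : ℝ)

/-- the largest height of a coordinate of `x ∈ K ^ n` (relative to `K`) -/
noncomputable def sizeK {K : Type} [Field K] [NumberField K] {n : ℕ} (x : Fin n → K) : ℝ :=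
  Real.exp (⨆ i, ProductsOfCurves.height (x i))

/-- The rational numbers `x` such that a point `P` of `y ^ m = ∏ f_i(x, 1)` above `x` violates
`(q (1 - 1 / m) - 2) h(x) ≤ d(P) + c`. -/
def BadCubic (m : ℕ) {k : ℕ} (f : Fin k → ℤ[X]) (n : Fin k → ℕ) (c : ℝ) : Set ℚ :=
  {x | ∃ y : ℂ, y ≠ 0 ∧ y ^ m = ((∏ i, CubicBranchPoints.form (f i) (n i) x : ℤ) : ℂ) ∧
    CubicBranchPoints.logDisc y + c < (((∑ i, n i : ℕ) : ℝ) * (1 - 1 / m) - 2) * CubicBranchPoints.height x}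

/-- `m ≥ 2` and the `f_i` define `k ≥ 1` binary forms of degrees `n_i ≤ 3` without multiple factor -/
def Cubic (m : ℕ) {k : ℕ} (f : Fin k → ℤ[X]) (n : Fin k → ℕ) : Prop :=
  2 ≤ m ∧ 1 ≤ k ∧ (∀ i, 1 ≤ n i ∧ n i ≤ 3) ∧ (∀ i, (f i).natDegree ≤ n i) ∧
    CubicBranchPoints.Reduced (∏ i, f i) (∑ i, n i)

/-- The rational numbers `x` such that a point `P` of `y ^ m = a ∏ (v_j x - u_j) ^ (e_j)` above `x` violates
`(q (1 - 1 / m) - 2) h(x) ≤ d(P) + ε h(x) + c`. -/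
def BadCyclic (m : ℕ) {q : ℕ} (a : ℤ) (P : Fin q → ℤ × ℤ) (e : Fin q → ℕ) (ε c : ℝ) : Set ℚ :=
  {x | ∃ y : ℂ, y ≠ 0 ∧ y ^ m = (CyclicCovers.form a P e x : ℂ) ∧
    CyclicCovers.logDisc y + ε * CyclicCovers.height x + c < (q * (1 - 1 / m) - 2) * CyclicCovers.height x}

/-- `m` is a prime, the `P_j = (u_j : v_j)` are distinct rational points, and the curve is ramified over all of them -/
def Cyclic (m : ℕ) {q : ℕ} (a : ℤ) (P : Fin q → ℤ × ℤ) (e : Fin q → ℕ) : Prop :=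
  m.Prime ∧ (∀ j, IsCoprime (P j).1 (P j).2) ∧ (∀ i j, i ≠ j → (P i).1 * (P j).2 ≠ (P j).1 * (P i).2) ∧ a ≠ 0 ∧
    ∀ j, ¬ m ∣ e j

/-- The `x ∈ K ^ n`, not over the branch points, such that a point of the product of the curves above `x`, over some number
field `L`, violates `∑_i (canonicalDegree_i + θ) h(x_i) ≤ d_K(L) + c`. -/
def BadProduct (K : Type) [Field K] [NumberField K] {n : ℕ} {q : Fin n → ℕ} {A : Fin n → Type}
    [∀ i, CommRing (A i)] [∀ i, Algebra ℚ (A i)] [∀ i, Algebra ℚ[X] (A i)]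
    (a : ∀ i, Fin (q i) → ℚ) {u : ∀ i, Fin (q i) → ℕ} (y : ∀ i j, Fin (u i j + 1) → A i)
    (θ c : ℝ) : Set (Fin n → K) :=
  {x | (∀ i j, x i ≠ (a i j : K)) ∧
    ∃ (L : Type) (_ : Field L) (_ : NumberField L) (_ : Algebra K L) (φ : ∀ i, A i →+* L),
      (∀ i, φ i (ProductsOfCurves.coord (A i)) = algebraMap K L (x i)) ∧
      ProductsOfCurves.logDisc K L + c <
        ∑ i, (ProductsOfCurves.canonicalDegree (y i) + θ) * ProductsOfCurves.height (x i)}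

theorem countable_poly : Countable ℤ[X] := by
  rw [← Cardinal.mk_le_aleph0_iff]
  refine (Polynomial.cardinalMk_le_max (R := ℤ)).trans ?_
  exact max_le Cardinal.mk_le_aleph0 le_rfl

lemma one_le_size (x : ℚ) : 1 ≤ size x := by
  unfold size
  have : 1 ≤ max x.num.natAbs x.den := le_max_of_le_right x.pos
  exact_mod_cast this

lemma sets {Bad : Set ℚ} {s C X : ℝ} (T : Finset ℚ) (hT : (T.card : ℝ) ≤ C * X ^ s)
    (h : ∀ x ∈ Bad, Real.log (size x) ≤ Real.log X → x ∈ T) (_hX : 1 ≤ X) :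
    {t | t ∈ Bad ∧ size t ≤ X}.Finite ∧ ({t | t ∈ Bad ∧ size t ≤ X}.ncard : ℝ) ≤ C * X ^ s := by
  have hsub : {t | t ∈ Bad ∧ size t ≤ X} ⊆ (T : Set ℚ) := by
    rintro t ⟨h1, h2⟩
    exact h t h1 (Real.log_le_log (by linarith [one_le_size t]) h2)
  refine ⟨T.finite_toSet.subset hsub, ?_⟩
  have h1 := Set.ncard_le_ncard hsub T.finite_toSet
  rw [Set.ncard_coe_finset] at h1
  exact (Nat.cast_le.2 h1).trans hT

/-- the data of a curve of the first kind, and a constant -/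
abbrev J1 : Type := ℕ × ℕ × (t : ℕ) × (Fin t → ℤ[X]) × (Fin t → ℕ)

open Classical in
/-- the exceptional sets -/
def S1 (j : J1) : Set ℚ := if Cubic j.1 j.2.2.2.1 j.2.2.2.2 then BadCubic j.1 j.2.2.2.1 j.2.2.2.2 (-(j.2.1 : ℝ)) else ∅

lemma count1 (j : J1) (ε : ℝ) (hε : 0 < ε) : ∃ C : ℝ, ∀ X : ℝ, 1 ≤ X →
      {t | t ∈ S1 j ∧ size t ≤ X}.Finite ∧ ({t | t ∈ S1 j ∧ size t ≤ X}.ncard : ℝ) ≤ C * X ^ ((4 : ℝ) / 3 + ε) := by
  obtain ⟨m, c, k, f, n⟩ := j
  unfold S1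
  simp only
  split_ifs with hj
  · obtain ⟨h1, h2, h3, h4, h5⟩ := hj
    obtain ⟨C, hC⟩ := CubicBranchPoints.result m k h1 h2 f n h3 h4 h5 (-(c : ℝ)) ε hε
    refine ⟨C, fun X hX => ?_⟩
    obtain ⟨T, hT, h⟩ := hC X hX
    refine sets T hT ?_ hX
    rintro x ⟨y, hy, hy2, hy3⟩ hx
    by_contra hxT
    exact absurd (h x y hx hy hy2 hxT) (not_le.2 hy3)
  · refine ⟨0, fun X hX => ?_⟩
    simp

lemma mem1 {m k : ℕ} {f : Fin k → ℤ[X]} {n : Fin k → ℕ} (h : Cubic m f n) {c : ℝ} {j : ℕ} (hj : -c ≤ j) :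
    BadCubic m f n c ⊆ S1 ⟨m, j, k, f, n⟩ := by
  unfold S1
  simp only
  rw [if_pos h]
  rintro x ⟨y, hy, hy2, hy3⟩
  exact ⟨y, hy, hy2, by linarith⟩

/-- the data of a curve of the second kind, and a constant -/
abbrev J2 (q : ℕ) : Type := ℕ × ℕ × ℤ × (Fin q → ℤ × ℤ) × (Fin q → ℕ)

open Classical in
/-- the exceptional sets -/
def S2 (q : ℕ) (ε : ℝ) (j : J2 q) : Set ℚ :=
  if Cyclic j.1 j.2.2.1 j.2.2.2.1 j.2.2.2.2 ∧ ε ≤ q * (1 - 1 / (j.1 : ℝ)) - 2 then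
    BadCyclic j.1 j.2.2.1 j.2.2.2.1 j.2.2.2.2 ε (-(j.2.1 : ℝ)) else ∅

lemma count2 (q : ℕ) (hq : 3 ≤ q) (e' : ℝ) (j : J2 q) (ε : ℝ) (hε : 0 < ε) : ∃ C : ℝ, ∀ X : ℝ, 1 ≤ X →
      {t | t ∈ S2 q e' j ∧ size t ≤ X}.Finite ∧
      ({t | t ∈ S2 q e' j ∧ size t ≤ X}.ncard : ℝ) ≤ C * X ^ (2 - 2 * (2 + e') / q + ε) := by
  obtain ⟨m, c, a, P, e⟩ := j
  unfold S2
  simp only
  split_ifs with hj
  · obtain ⟨⟨h1, h2, h3, h4, h5⟩, h6⟩ := hj
    obtain ⟨C, hC⟩ := CyclicCovers.result m q h1 hq P h2 h3 a h4 e h5 e' (-(c : ℝ)) ε h6 hε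
    refine ⟨C, fun X hX => ?_⟩
    obtain ⟨T, hT, h⟩ := hC X hX
    refine sets T hT ?_ hX
    rintro x ⟨y, hy, hy2, hy3⟩ hx
    by_contra hxT
    exact absurd (h x y hx hy hy2 hxT) (not_le.2 hy3)
  · refine ⟨0, fun X hX => ?_⟩
    simp

lemma mem2 {m q : ℕ} {a : ℤ} {P : Fin q → ℤ × ℤ} {e : Fin q → ℕ} {ε : ℝ} (h : Cyclic m a P e)
    (hε : ε ≤ q * (1 - 1 / (m : ℝ)) - 2) {c : ℝ} {j : ℕ} (hj : -c ≤ j) :
    BadCyclic m a P e ε c ⊆ S2 q ε (m, j, a, P, e) := by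
  unfold S2
  simp only
  rw [if_pos ⟨h, hε⟩]
  rintro x ⟨y, hy, hy2, hy3⟩
  exact ⟨y, hy, hy2, by linarith⟩

lemma one_le_sizeK {K : Type} [Field K] [NumberField K] {n : ℕ} (x : Fin n → K) : 1 ≤ sizeK x := by
  unfold sizeK
  apply Real.one_le_exp
  apply Real.iSup_nonneg
  intro i
  unfold ProductsOfCurves.height
  exact Height.zero_le_logHeight₁ _

lemma sizeK_le {K : Type} [Field K] [NumberField K] {n : ℕ} {x : Fin n → K} {X : ℝ} (hX : 1 ≤ X) (h : sizeK x ≤ X)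
    (i : Fin n) : ProductsOfCurves.height (x i) ≤ Real.log X := by
  have h1 : ⨆ i, ProductsOfCurves.height (x i) ≤ Real.log X := by
    rw [Real.le_log_iff_exp_le (by linarith)]
    exact h
  exact (le_ciSup (f := fun i => ProductsOfCurves.height (x i)) (Set.finite_range _).bddAbove i).trans h1

/-- **Vojta's inequality for all points of covers over the approximations to a point.** See the docstring of the file. -/
theorem result :
    -- 1. cyclic covers with branch points of degree at most three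
    (∀ᵐ z : ℝ, ∀ σ : ℝ, 4 / 3 < σ → ∀ (m k : ℕ) (f : Fin k → ℤ[X]) (n : Fin k → ℕ), Cubic m f n → ∀ c : ℝ,
      {x : ℚ | x ∈ BadCubic m f n c ∧ |(x : ℝ) - z| ≤ size x ^ (-σ)}.Finite) ∧
    (∀ (M : Type) [MetricSpace M] (φ : ℚ → M) (σ : ℝ), 0 < σ →
      ∃ E : Set M, dimH E ≤ ENNReal.ofReal (4 / 3 / σ) ∧
        ∀ z ∉ E, ∀ (m k : ℕ) (f : Fin k → ℤ[X]) (n : Fin k → ℕ), Cubic m f n → ∀ c : ℝ,
          {x : ℚ | x ∈ BadCubic m f n c ∧ dist (φ x) z ≤ size x ^ (-σ)}.Finite) ∧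
    -- 2. cyclic covers of prime degree with rational branch points
    (∀ q : ℕ, 3 ≤ q → ∀ ε : ℝ, ε ≤ q - 2 →
      (∀ᵐ z : ℝ, ∀ σ : ℝ, 2 - 2 * (2 + ε) / q < σ → ∀ (m : ℕ) (a : ℤ) (P : Fin q → ℤ × ℤ) (e : Fin q → ℕ),
        Cyclic m a P e → ε ≤ q * (1 - 1 / m) - 2 → ∀ c : ℝ,
          {x : ℚ | x ∈ BadCyclic m a P e ε c ∧ |(x : ℝ) - z| ≤ size x ^ (-σ)}.Finite) ∧
      (∀ (M : Type) [MetricSpace M] (φ : ℚ → M) (σ : ℝ), 0 < σ →
        ∃ E : Set M, dimH E ≤ ENNReal.ofReal ((2 - 2 * (2 + ε) / q) / σ) ∧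
          ∀ z ∉ E, ∀ (m : ℕ) (a : ℤ) (P : Fin q → ℤ × ℤ) (e : Fin q → ℕ),
            Cyclic m a P e → ε ≤ q * (1 - 1 / m) - 2 → ∀ c : ℝ,
              {x : ℚ | x ∈ BadCyclic m a P e ε c ∧ dist (φ x) z ≤ size x ^ (-σ)}.Finite)) ∧
    -- 3. products of curves
    (∀ (K : Type) [Field K] [NumberField K] (n : ℕ), 1 ≤ n → ∀ Q : ℕ, 2 ≤ Q → ∀ q : Fin n → ℕ, (∀ i, 1 ≤ q i) →
      (∀ i, q i ≤ Q) → ∀ (A : Fin n → Type)
      [∀ i, CommRing (A i)] [∀ i, IsDedekindDomain (A i)] [∀ i, Algebra ℚ (A i)]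
      [∀ i, Algebra ℚ[X] (A i)] [∀ i, IsScalarTower ℚ ℚ[X] (A i)] [∀ i, Module.Finite ℚ[X] (A i)]
      [∀ i, FaithfulSMul ℚ[X] (A i)] (a : ∀ i, Fin (q i) → ℚ), (∀ i, Function.Injective (a i)) →
      ∀ (u : ∀ i, Fin (q i) → ℕ) (y : ∀ i j, Fin (u i j + 1) → A i),
      (∀ i j, y i j 0 = ProductsOfCurves.coord (A i) - algebraMap ℚ[X] (A i) (C (a i j))) →
      (∀ i j l, y i j l ∈
        (Ideal.span {ProductsOfCurves.coord (A i) - algebraMap ℚ[X] (A i) (C (a i j))}).radical) →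
      ∀ θ : ℝ, 0 ≤ θ → θ < 2 → ∀ (M : Type) [MetricSpace M] (φ : (Fin n → K) → M) (σ : ℝ), 0 < σ →
        ∃ E : Set M, dimH E ≤ ENNReal.ofReal (ProductsOfCurves.exponent n Q θ / σ) ∧
          ∀ z ∉ E, ∀ c : ℝ,
            {x : Fin n → K | x ∈ BadProduct K a y θ c ∧ dist (φ x) z ≤ sizeK x ^ (-σ)}.Finite) := by
  have := countable_poly
  refine ⟨?_, ?_, ?_, ?_⟩
  · filter_upwards [Pool.Agent.H107.ME.ae_family (fun x : ℚ => (x : ℝ)) size one_le_size
      (by norm_num : (0 : ℝ) ≤ 4 / 3) S1 count1] with z hz σ hσ m k f n hC c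
    obtain ⟨j, hj⟩ := exists_nat_ge (-c)
    exact (hz σ hσ ⟨m, j, k, f, n⟩).subset fun x hx => ⟨mem1 hC hj hx.1, hx.2⟩
  · intro M _ φ σ hσ
    obtain ⟨E, hE, h⟩ := Pool.Agent.H107.ME.dim_family φ size one_le_size
      (by norm_num : (0 : ℝ) ≤ 4 / 3) hσ S1 count1
    refine ⟨E, hE, fun z hz m k f n hC c => ?_⟩
    obtain ⟨j, hj⟩ := exists_nat_ge (-c)
    exact (h z hz ⟨m, j, k, f, n⟩).subset fun x hx => ⟨mem1 hC hj hx.1, hx.2⟩
  · intro q hq ε hε
    have hq0 : (0 : ℝ) < q := by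
      have : 0 < q := by omega
      exact_mod_cast this
    have hs : (0 : ℝ) ≤ 2 - 2 * (2 + ε) / q := by
      rw [sub_nonneg, div_le_iff₀ hq0]
      linarith
    refine ⟨?_, ?_⟩
    · filter_upwards [Pool.Agent.H107.ME.ae_family (fun x : ℚ => (x : ℝ)) size one_le_size
        hs (S2 q ε) (count2 q hq ε)] with z hz σ hσ m a P e hC h2 c
      obtain ⟨j, hj⟩ := exists_nat_ge (-c)
      exact (hz σ hσ (m, j, a, P, e)).subset fun x hx => ⟨mem2 hC h2 hj hx.1, hx.2⟩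
    · intro M _ φ σ hσ
      obtain ⟨E, hE, h⟩ := Pool.Agent.H107.ME.dim_family φ size one_le_size
        hs hσ (S2 q ε) (count2 q hq ε)
      refine ⟨E, hE, fun z hz m a P e hC h2 c => ?_⟩
      obtain ⟨j, hj⟩ := exists_nat_ge (-c)
      exact (h z hz (m, j, a, P, e)).subset fun x hx => ⟨mem2 hC h2 hj hx.1, hx.2⟩
  · intro K _ _ n hn Q hQ q hq hqQ A _ _ _ _ _ _ _ a ha u y hy0 hyr θ hθ0 hθ2 M _ φ σ hσ
    have hs : 0 ≤ ProductsOfCurves.exponent n Q θ := by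
      unfold ProductsOfCurves.exponent
      have hn1 : (1 : ℝ) ≤ n := by exact_mod_cast hn
      have hQ2 : (2 : ℝ) ≤ Q := by exact_mod_cast hQ
      refine le_min (le_max_of_le_left (by positivity)) (le_min ?_ ?_)
      · refine mul_nonneg ?_ (by linarith)
        rw [sub_nonneg, div_le_iff₀ (by positivity)]
        nlinarith
      · refine mul_nonneg (mul_nonneg (by linarith) ?_) (by linarith)
        have h1 : (0 : ℝ) ≤ 1 - 2 / Q := by
          rw [sub_nonneg, div_le_one (by linarith)]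
          exact hQ2
        have h2 : (1 : ℝ) - 2 / Q ≤ 1 := by
          have : (0 : ℝ) ≤ 2 / Q := by positivity
          linarith
        linarith [pow_le_one₀ (n := n) h1 h2]
    obtain ⟨E, hE, h⟩ := Pool.Agent.H107.ME.dim_family φ sizeK one_le_sizeK hs hσ (J := ℕ)
      (fun j => BadProduct K a y θ (-(j : ℝ))) (by
        intro j ε hε
        obtain ⟨-, -, C, hC⟩ := ProductsOfCurves.result K n hn Q hQ q hq hqQ A a ha u y hy0 hyr θ (-(j : ℝ)) ε
          hθ0 hθ2 hε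
        refine ⟨C, fun X hX => ?_⟩
        obtain ⟨h1, h2⟩ := hC X hX
        have hsub : {t : Fin n → K | t ∈ BadProduct K a y θ (-(j : ℝ)) ∧ sizeK t ≤ X} ⊆
            ProductsOfCurves.exceptional K a y θ (-(j : ℝ)) X := by
          rintro t ⟨⟨g1, g2⟩, g3⟩
          exact ⟨g1, sizeK_le hX g3, g2⟩
        exact ⟨h1.subset hsub, (Nat.cast_le.2 (Set.ncard_le_ncard hsub h1)).trans h2⟩)
    refine ⟨E, hE, fun z hz c => ?_⟩
    obtain ⟨j, hj⟩ := exists_nat_ge (-c)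
    refine (h z hz j).subset ?_
    rintro x ⟨⟨g1, L, i1, i2, i3, ψ, g2, g3⟩, g4⟩
    exact ⟨⟨g1, L, i1, i2, i3, ψ, g2, by linarith⟩, g4⟩

end Pool.Agent.Results.MP_9b9442_nt.NearPointsSharp
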